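import Mathlib

/-!
# A `k_ℝ` topological group with a closed subgroup that is not `k_ℝ`
-/

namespace Pool.Agent.Results.MP_ebea7e_gt.ClosedSubgroupNotKR

open Set Topology Filter

/-- A Tychonoff space `X` is a `k_ℝ`-space if every real function on `X` whose restriction to
every compact set is continuous is continuous. -/
def IsKR (X : Type*) [TopologicalSpace X] : Prop :=
  T35Space X ∧ ∀ f : X → ℝ, (∀ K : Set X, IsCompact K → Continuous (K.restrict f)) → Continuous f

/-- A product of discrete spaces is a `k_ℝ`-space. -/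
theorem isKR_pi_discrete {ι : Type*} {E : ι → Type*} [∀ i, TopologicalSpace (E i)]
    [∀ i, DiscreteTopology (E i)] : IsKR (∀ i, E i) := by
  classical
  refine ⟨inferInstance, fun f hf => ?_⟩
  have hf' : ∀ K : Set (∀ i, E i), IsCompact K → ContinuousOn f K := fun K hK =>
    continuousOn_iff_continuous_restrict.2 (hf K hK)
  rw [continuous_iff_continuousAt]
  intro x
  by_contra hcon
  rw [Metric.continuousAt_iff'] at hcon
  push Not at hcon
  obtain ⟨ε, hε, hfr⟩ := hcon
  -- finite modifications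
  have step : ∀ F : Finset ι, ∃ (y : ∀ i, E i) (T : Finset ι), (∀ i ∈ F, y i = x i) ∧
      (∀ i ∉ T, y i = x i) ∧ ε / 2 ≤ dist (f y) (f x) := by
    intro F
    have hopen : {y : ∀ i, E i | ∀ i ∈ F, y i = x i} ∈ 𝓝 x := by
      have : {y : ∀ i, E i | ∀ i ∈ F, y i = x i} = ⋂ i ∈ F, {y | y i = x i} := by
        ext y; simp
      rw [this]
      refine (Filter.biInter_finset_mem F).2 fun i _ => ?_
      exact (((isOpen_discrete {x i}).preimage (continuous_apply i))).mem_nhds rfl
    obtain ⟨y, hy, hyF⟩ : ∃ y, ε ≤ dist (f y) (f x) ∧ ∀ i ∈ F, y i = x i :=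
      (hfr.and_eventually hopen).exists
    -- the cube
    let K : Set (∀ i, E i) := Set.pi univ fun i => {x i, y i}
    have hK : IsCompact K := isCompact_univ_pi fun i => (Set.toFinite _).isCompact
    have hyK : y ∈ K := fun i _ => by simp
    have hc := (hf' K hK) y hyK
    rw [Metric.continuousWithinAt_iff'] at hc
    have h2 := hc (ε / 2) (by linarith)
    obtain ⟨V, hV, hyV, hVK⟩ := mem_nhdsWithin.1 h2
    obtain ⟨T, u, hu, huV⟩ := isOpen_pi_iff.1 hV y hyV
    refine ⟨fun i => if i ∈ T then y i else x i, T, ?_, ?_, ?_⟩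
    · intro i hi
      by_cases hT : i ∈ T
      · simp only [hT, if_true]; exact hyF i hi
      · simp only [hT, if_false]
    · intro i hi
      simp only [hi, if_false]
    · have h3 : dist (f fun i => if i ∈ T then y i else x i) (f y) < ε / 2 := by
        refine hVK ⟨huV fun i hi => ?_, fun i _ => ?_⟩
        · have hi' : i ∈ T := hi
          simp only [hi', if_true]; exact (hu i hi').2
        · by_cases hT : i ∈ T
          · simp [hT]
          · simp [hT]
      have h4 := dist_triangle_left (f y) (f x) (f fun i => if i ∈ T then y i else x i)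
      linarith
  choose Y T hYF hYT hYd using step
  let G : ℕ → Finset ι := fun n => n.rec ∅ (fun _ F => F ∪ T F)
  have hG : ∀ n, G (n+1) = G n ∪ T (G n) := fun _ => rfl
  have hGm : ∀ m n, m ≤ n → G m ⊆ G n := by
    intro m n hmn
    induction n, hmn using Nat.le_induction with
    | base => exact Finset.Subset.refl _
    | succ n _ ih => exact ih.trans (by rw [hG]; exact Finset.subset_union_left)
  let y : ℕ → ∀ i, E i := fun n => Y (G n)
  have hlim : Tendsto y atTop (𝓝 x) := by
    rw [tendsto_pi_nhds]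
    intro i
    have hev : ∀ᶠ n in atTop, x i = y n i := by
      rcases Classical.em (∃ n, i ∈ G n) with hex | hex
      · obtain ⟨n, hn⟩ := hex
        filter_upwards [eventually_ge_atTop n] with m hm
        exact (hYF (G m) i (hGm n m hm hn)).symm
      · push Not at hex
        refine Eventually.of_forall fun n => ?_
        refine (hYT (G n) i fun hi => hex (n+1) ?_).symm
        rw [hG]; exact Finset.mem_union_right _ hi
    exact tendsto_const_nhds.congr' hev
  have hK : IsCompact (insert x (range y)) := hlim.isCompact_insert_range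
  have hc := (hf' _ hK) x (mem_insert _ _)
  have hlim2 : Tendsto (fun n => f (y n)) atTop (𝓝 (f x)) := by
    refine hc.tendsto.comp (tendsto_nhdsWithin_iff.2 ⟨hlim, Eventually.of_forall fun n => ?_⟩)
    exact mem_insert_of_mem _ (mem_range_self n)
  obtain ⟨n, hn⟩ := ((Metric.tendsto_atTop.1 hlim2) (ε/2) (by linarith))
  exact absurd (hn n le_rfl) (not_lt.2 (hYd (G n)))

/-- Finitely supported sequences of binary sequences, with the discrete topology. -/
def D : Type := ℕ →₀ (ℕ → ZMod 2)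

noncomputable instance : AddCommGroup D := inferInstanceAs (AddCommGroup (ℕ →₀ (ℕ → ZMod 2)))
instance : TopologicalSpace D := ⊥
instance : DiscreteTopology D := ⟨rfl⟩

/-- the index set -/
abbrev J : Type := (ℕ → ℕ) ⊕ ℕ

/-- The big group: a power of the discrete group `D × ℤ`. -/
abbrev G : Type := J → D × ℤ

/-- entries of an element of `D` -/
def ev (x : D) (n k : ℕ) : ZMod 2 := (show ℕ →₀ (ℕ → ZMod 2) from x) n k

theorem ev_add (x y : D) (n k : ℕ) : ev (x + y) n k = ev x n k + ev y n k := rfl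

theorem ev_zero (n k : ℕ) : ev 0 n k = 0 := rfl

theorem ev_neg (x : D) (n k : ℕ) : ev (-x) n k = - ev x n k := rfl

theorem ev_ext {x y : D} (h : ∀ n k, ev x n k = ev y n k) : x = y := by
  refine Finsupp.ext fun n => ?_
  funext k
  exact h n k

/-- every family of entries supported in finitely many rows comes from an element. -/
theorem exists_ev (a : ℕ → ℕ → ZMod 2) (N : ℕ) (h : ∀ n, N ≤ n → ∀ k, a n k = 0) :
    ∃ x : D, ∀ n k, ev x n k = a n k := by
  refine ⟨Finsupp.onFinset (Finset.range N) a fun n hn => ?_, fun n k => rfl⟩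
  rw [Finset.mem_range]
  by_contra hcon
  apply hn
  funext k
  exact h n (not_lt.1 hcon) k

theorem exists_bound (x : D) : ∃ N, ∀ n, N ≤ n → ∀ k, ev x n k = 0 := by
  let y : ℕ →₀ (ℕ → ZMod 2) := x
  obtain ⟨N, hN⟩ := y.support.bddAbove
  refine ⟨N + 1, fun n hn k => ?_⟩
  have : n ∉ y.support := fun h => by
    have := hN (Finset.mem_coe.2 h)
    omega
  have h2 : y n = 0 := Finsupp.notMem_support_iff.1 this
  show y n k = 0
  rw [h2]; rfl

/-- The closed subgroup: elements `φ` such that there are `x : D` and `v : ℕ → ℤ` with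
`φ (inl g) = (x truncated by g, 0)` and `φ (inr n) = (0, v n)`. -/
def H : AddSubgroup G where
  carrier := {φ | ∃ x : D, (∀ g : ℕ → ℕ, (∀ n k, ev (φ (Sum.inl g)).1 n k =
      if k ≤ g n then ev x n k else 0) ∧ (φ (Sum.inl g)).2 = 0) ∧ ∀ n : ℕ, (φ (Sum.inr n)).1 = 0}
  add_mem' := by
    rintro φ ψ ⟨x, hx, hx'⟩ ⟨y, hy, hy'⟩
    refine ⟨x + y, fun g => ⟨fun n k => ?_, ?_⟩, fun n => ?_⟩
    · show ev ((φ (Sum.inl g)).1 + (ψ (Sum.inl g)).1) n k = _
      rw [ev_add, ev_add, (hx g).1, (hy g).1]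
      split_ifs <;> simp
    · show (φ (Sum.inl g)).2 + (ψ (Sum.inl g)).2 = 0
      rw [(hx g).2, (hy g).2, add_zero]
    · show (φ (Sum.inr n)).1 + (ψ (Sum.inr n)).1 = 0
      rw [hx', hy', add_zero]
  zero_mem' := ⟨0, fun g => ⟨fun n k => by
    show ev 0 n k = _
    rw [ev_zero]; simp, rfl⟩, fun n => rfl⟩
  neg_mem' := by
    rintro φ ⟨x, hx, hx'⟩
    refine ⟨-x, fun g => ⟨fun n k => ?_, ?_⟩, fun n => ?_⟩
    · show ev (-(φ (Sum.inl g)).1) n k = _
      rw [ev_neg, ev_neg, (hx g).1]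
      split_ifs <;> simp
    · show -(φ (Sum.inl g)).2 = 0
      rw [(hx g).2, neg_zero]
    · show -(φ (Sum.inr n)).1 = 0
      rw [hx', neg_zero]

theorem mem_H_iff (φ : G) : φ ∈ H ↔ (∀ g : ℕ → ℕ, (φ (Sum.inl g)).2 = 0) ∧
    (∀ n : ℕ, (φ (Sum.inr n)).1 = 0) ∧
    (∀ (g : ℕ → ℕ) (n k : ℕ), g n < k → ev (φ (Sum.inl g)).1 n k = 0) ∧
    (∀ (g g' : ℕ → ℕ) (n k : ℕ), k ≤ g n → k ≤ g' n →
      ev (φ (Sum.inl g)).1 n k = ev (φ (Sum.inl g')).1 n k) := by
  constructor
  · rintro ⟨x, hx, hx'⟩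
    refine ⟨fun g => (hx g).2, hx', fun g n k hk => ?_, fun g g' n k hk hk' => ?_⟩
    · rw [(hx g).1, if_neg (not_le.2 hk)]
    · rw [(hx g).1, (hx g').1, if_pos hk, if_pos hk']
  · rintro ⟨h1, h2, h3, h4⟩
    classical
    let a : ℕ → ℕ → ZMod 2 := fun n k => ev (φ (Sum.inl (fun _ => k))).1 n k
    have ha : ∀ (g : ℕ → ℕ) n k, k ≤ g n → ev (φ (Sum.inl g)).1 n k = a n k := fun g n k hk =>
      h4 g (fun _ => k) n k hk le_rfl
    let g : ℕ → ℕ := fun n => if h : ∃ k, a n k ≠ 0 then h.choose else 0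
    obtain ⟨N, hN⟩ := exists_bound (φ (Sum.inl g)).1
    have hrow : ∀ n, N ≤ n → ∀ k, a n k = 0 := by
      intro n hn k
      by_contra hne
      have hex : ∃ k, a n k ≠ 0 := ⟨k, hne⟩
      have hg : g n = hex.choose := dif_pos hex
      have h5 : a n (g n) ≠ 0 := by rw [hg]; exact hex.choose_spec
      exact h5 (by rw [← ha g n (g n) le_rfl]; exact hN n hn _)
    obtain ⟨x, hx⟩ := exists_ev a N hrow
    refine ⟨x, fun g => ⟨fun n k => ?_, h1 g⟩, h2⟩
    by_cases hk : k ≤ g n
    · rw [if_pos hk, ha g n k hk, hx]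
    · rw [if_neg hk]; exact h3 g n k (not_le.1 hk)

theorem isClopen_coord (j : J) (P : D × ℤ → Prop) : IsClopen {φ : G | P (φ j)} :=
  (isClopen_discrete {z | P z}).preimage (continuous_apply j)

theorem isClosed_H : IsClosed (H : Set G) := by
  have h0 : (H : Set G) = (⋂ g : ℕ → ℕ, {φ | (φ (Sum.inl g)).2 = 0}) ∩
      ((⋂ n : ℕ, {φ | (φ (Sum.inr n)).1 = 0}) ∩
      ((⋂ g : ℕ → ℕ, ⋂ n : ℕ, ⋂ k : ℕ, {φ | g n < k → ev (φ (Sum.inl g)).1 n k = 0}) ∩
      (⋂ g : ℕ → ℕ, ⋂ g' : ℕ → ℕ, ⋂ n : ℕ, ⋂ k : ℕ, {φ | k ≤ g n → k ≤ g' n →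
        ev (φ (Sum.inl g)).1 n k = ev (φ (Sum.inl g')).1 n k}))) := by
    ext φ
    rw [SetLike.mem_coe, mem_H_iff]
    simp only [mem_inter_iff, mem_iInter, mem_setOf_eq]
  rw [h0]
  refine IsClosed.inter (isClosed_iInter fun g => ?_) (IsClosed.inter (isClosed_iInter fun n => ?_)
    (IsClosed.inter (isClosed_iInter fun g => isClosed_iInter fun n => isClosed_iInter fun k => ?_)
    (isClosed_iInter fun g => isClosed_iInter fun g' => isClosed_iInter fun n =>
      isClosed_iInter fun k => ?_)))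
  · exact (isClopen_coord _ fun z => z.2 = 0).isClosed
  · exact (isClopen_coord _ fun z => z.1 = 0).isClosed
  · exact (isClopen_coord (Sum.inl g) fun z => g n < k → ev z.1 n k = 0).isClosed
  · by_cases hk : k ≤ g n ∧ k ≤ g' n
    · have h5 : {φ : G | k ≤ g n → k ≤ g' n →
          ev (φ (Sum.inl g)).1 n k = ev (φ (Sum.inl g')).1 n k} =
          ⋃ c : ZMod 2, ({φ : G | ev (φ (Sum.inl g)).1 n k = c} ∩
            {φ : G | ev (φ (Sum.inl g')).1 n k = c}) := by
        ext φ
        simp only [mem_setOf_eq, mem_iUnion, mem_inter_iff, hk.1, hk.2, true_imp_iff]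
        constructor
        · intro h; exact ⟨_, rfl, h.symm⟩
        · rintro ⟨c, h1, h2⟩; rw [h1, h2]
      rw [h5]
      refine isClosed_iUnion_of_finite fun c => IsClosed.inter ?_ ?_
      · exact (isClopen_coord (Sum.inl g) fun z => ev z.1 n k = c).isClosed
      · exact (isClopen_coord (Sum.inl g') fun z => ev z.1 n k = c).isClosed
    · have h5 : {φ : G | k ≤ g n → k ≤ g' n →
          ev (φ (Sum.inl g)).1 n k = ev (φ (Sum.inl g')).1 n k} = univ := by
        rw [eq_univ_iff_forall]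
        intro φ h1 h2
        exact absurd ⟨h1, h2⟩ hk
      rw [h5]; exact isClosed_univ

/-- the clopen sets -/
def W (n k : ℕ) : Set H := {h | ev (h.1 (Sum.inl (fun _ => k))).1 n k ≠ 0 ∧
  (h.1 (Sum.inr n)).2 = (k : ℤ)}

theorem isClopen_W (n k : ℕ) : IsClopen (W n k) := by
  have h1 : IsClopen {h : H | ev (h.1 (Sum.inl (fun _ => k))).1 n k ≠ 0} :=
    (isClopen_coord (Sum.inl (fun _ => k)) fun z => ev z.1 n k ≠ 0).preimage continuous_subtype_val
  have h2 : IsClopen {h : H | (h.1 (Sum.inr n)).2 = (k : ℤ)} :=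
    (isClopen_coord (Sum.inr n) fun z => z.2 = (k : ℤ)).preimage continuous_subtype_val
  exact h1.inter h2

theorem not_isKR_H : ¬ IsKR H := by
  classical
  rintro ⟨-, hkr⟩
  let V : Set H := ⋃ n, ⋃ k, W n k
  let f : H → ℝ := fun h => if h ∈ V then 1 else 0
  have hf : Continuous f := by
    refine hkr f fun K hK => ?_
    -- bounds
    have hb : ∀ n : ℕ, ∃ b : ℕ, ∀ h ∈ K, (h.1 (Sum.inr n)).2 ≤ (b : ℤ) := by
      intro n
      have hc : Continuous (fun h : H => (h.1 (Sum.inr n)).2) :=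
        continuous_snd.comp ((continuous_apply _).comp continuous_subtype_val)
      obtain ⟨B, hB⟩ := (hK.image hc).finite_of_discrete.bddAbove
      refine ⟨B.toNat, fun h hh => (hB ⟨h, hh, rfl⟩).trans (Int.self_le_toNat B)⟩
    choose b hb using hb
    have hN : ∃ N : ℕ, ∀ h ∈ K, ∀ n, N ≤ n → ∀ k, ev (h.1 (Sum.inl b)).1 n k = 0 := by
      have hc : Continuous (fun h : H => (h.1 (Sum.inl b)).1) :=
        continuous_fst.comp ((continuous_apply _).comp continuous_subtype_val)
      have hfin := (hK.image hc).finite_of_discrete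
      choose N hN using exists_bound
      obtain ⟨M, hM⟩ := (hfin.image N).bddAbove
      refine ⟨M, fun h hh n hn k => hN _ n ?_ k⟩
      exact (hM ⟨_, ⟨h, hh, rfl⟩, rfl⟩).trans hn
    obtain ⟨N, hN⟩ := hN
    let V' : Set H := ⋃ n ∈ Finset.range N, ⋃ k ∈ Finset.range (b n + 1), W n k
    have hV' : IsClopen V' := by
      refine isClopen_biUnion_finset fun n _ => isClopen_biUnion_finset fun k _ => isClopen_W n k
    have hVV : ∀ h ∈ K, (h ∈ V ↔ h ∈ V') := by
      intro h hh
      constructor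
      · intro hV
        obtain ⟨n, hV⟩ := mem_iUnion.1 hV
        obtain ⟨k, hV⟩ := mem_iUnion.1 hV
        have hkb : k ≤ b n := by
          have := hb n h hh
          rw [hV.2] at this
          exact_mod_cast this
        have hH := (mem_H_iff h.1).1 h.2
        have h1 : ev (h.1 (Sum.inl b)).1 n k ≠ 0 := by
          rw [hH.2.2.2 b (fun _ => k) n k hkb le_rfl]
          exact hV.1
        have hnN : n < N := by
          by_contra hcon
          exact h1 (hN h hh n (not_lt.1 hcon) k)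
        refine mem_biUnion (Finset.mem_coe.2 (Finset.mem_range.2 hnN)) ?_
        exact mem_biUnion (Finset.mem_coe.2 (Finset.mem_range.2 (Nat.lt_succ_of_le hkb))) hV
      · intro hV
        obtain ⟨n, -, hV⟩ := mem_iUnion₂.1 hV
        obtain ⟨k, -, hV⟩ := mem_iUnion₂.1 hV
        exact mem_iUnion.2 ⟨n, mem_iUnion.2 ⟨k, hV⟩⟩
    have h1 : Continuous (fun h : H => if h ∈ V' then (1:ℝ) else 0) := by
      refine Continuous.if (fun a ha => ?_) continuous_const continuous_const
      have : frontier V' = ∅ := hV'.frontier_eq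
      have ha' : a ∈ frontier V' := ha
      rw [this] at ha'
      exact ha'.elim
    have h2 : K.restrict f = K.restrict (fun h : H => if h ∈ V' then (1:ℝ) else 0) := by
      funext ⟨h, hh⟩
      exact if_congr (hVV h hh) rfl rfl
    rw [h2]
    exact h1.comp continuous_subtype_val
  -- discontinuity at zero
  have h0 : f 0 = 0 := by
    have : (0 : H) ∉ V := by
      intro hV
      obtain ⟨n, hV⟩ := mem_iUnion.1 hV
      obtain ⟨k, hV⟩ := mem_iUnion.1 hV
      exact hV.1 rfl
    simp only [f, this, if_false]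
  have hU : IsOpen (f ⁻¹' Iio (1/2)) := isOpen_Iio.preimage hf
  obtain ⟨U, hUo, hUU⟩ := isOpen_induced_iff.1 hU
  have h0U : (0 : G) ∈ U := by
    have : (0 : H) ∈ Subtype.val ⁻¹' U := by
      rw [hUU]
      show f 0 < 1/2
      rw [h0]; norm_num
    exact this
  obtain ⟨F, u, hu, huU⟩ := isOpen_pi_iff.1 hUo _ h0U
  -- choose the coordinates
  obtain ⟨n, hn⟩ : ∃ n : ℕ, Sum.inr n ∉ F := by
    have hinf : (range (Sum.inr : ℕ → J)).Infinite := infinite_range_of_injective Sum.inr_injective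
    obtain ⟨_, ⟨n, rfl⟩, hn⟩ := hinf.exists_notMem_finset F
    exact ⟨n, hn⟩
  obtain ⟨k, hk⟩ : ∃ k : ℕ, ∀ g : ℕ → ℕ, Sum.inl g ∈ F → g n < k := by
    let ψ : J → ℕ := Sum.elim (fun g => g n) (fun _ => 0)
    obtain ⟨M, hM⟩ := (F.image ψ).bddAbove
    refine ⟨M + 1, fun g hg => Nat.lt_succ_of_le (hM ?_)⟩
    exact Finset.mem_coe.2 (Finset.mem_image.2 ⟨_, hg, rfl⟩)
  obtain ⟨x, hx⟩ := exists_ev (fun n' k' => if n' = n ∧ k' = k then 1 else 0) (n + 1)
    (fun n' hn' k' => by
      have : n' ≠ n := by omega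
      simp [this])
  let φ : G := fun j => Sum.elim (fun g : ℕ → ℕ => ((if k ≤ g n then x else 0, 0) : D × ℤ))
    (fun m => (0, if m = n then (k : ℤ) else 0)) j
  have hφH : φ ∈ H := by
    refine ⟨x, fun g => ⟨fun n' k' => ?_, rfl⟩, fun m => rfl⟩
    show ev (if k ≤ g n then x else 0) n' k' = _
    by_cases hg : k ≤ g n
    · rw [if_pos hg]
      by_cases hk' : k' ≤ g n'
      · rw [if_pos hk']
      · rw [if_neg hk', hx, if_neg]
        rintro ⟨rfl, rfl⟩
        exact hk' hg
    · rw [if_neg hg, ev_zero]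
      by_cases hk' : k' ≤ g n'
      · rw [if_pos hk', hx, if_neg]
        rintro ⟨rfl, rfl⟩
        exact hg hk'
      · rw [if_neg hk']
  have hφU : φ ∈ U := by
    refine huU fun j hj => ?_
    have : φ j = 0 := by
      rcases j with g | m
      · show ((if k ≤ g n then x else 0, 0) : D × ℤ) = 0
        rw [if_neg (not_le.2 (hk g hj))]; rfl
      · have hmn : m ≠ n := by
          rintro rfl; exact hn hj
        show ((0, if m = n then (k : ℤ) else 0) : D × ℤ) = 0
        rw [if_neg hmn]; rfl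
    rw [this]
    exact (hu j hj).2
  have hφV : (⟨φ, hφH⟩ : H) ∈ V := by
    refine mem_iUnion.2 ⟨n, mem_iUnion.2 ⟨k, ?_, ?_⟩⟩
    · show ev (if k ≤ k then x else 0) n k ≠ 0
      rw [if_pos le_rfl, hx, if_pos ⟨rfl, rfl⟩]
      exact one_ne_zero
    · show (if n = n then (k : ℤ) else 0) = k
      rw [if_pos rfl]
  have h3 : (⟨φ, hφH⟩ : H) ∈ f ⁻¹' Iio (1/2) := by
    rw [← hUU]; exact hφU
  have h4 : f ⟨φ, hφH⟩ = 1 := by simp only [f, hφV, if_true]
  have h5 : f ⟨φ, hφH⟩ < 1/2 := h3
  rw [h4] at h5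
  norm_num at h5

/-- There is a Hausdorff topological (abelian) group which is a `k_ℝ`-space and has a closed
subgroup which is not a `k_ℝ`-space. -/
theorem result : ∃ (G : Type) (_ : AddCommGroup G) (_ : TopologicalSpace G)
    (_ : IsTopologicalAddGroup G) (H : AddSubgroup G),
    T2Space G ∧ IsKR G ∧ IsClosed (H : Set G) ∧ ¬ IsKR H :=
  ⟨G, inferInstance, inferInstance, inferInstance, H, inferInstance, isKR_pi_discrete,
    isClosed_H, not_isKR_H⟩

end Pool.Agent.Results.MP_ebea7e_gt.ClosedSubgroupNotKR
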